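import Pool.Agent.H81.THC.CSA

set_option autoImplicit false

open NumberField Complex
open scoped nonZeroDivisors

namespace Pool.Agent.H81.THC

open Pool.Agent.H25.HK Pool.Agent.H28.RC Pool.Agent.H23.LB Pool.Agent.H29.TC

section
variable {K : Type} [Field K] [NumberField K]

lemma fi_mono {I J : Ideal (𝓞 K)} (h : I ≤ J) (M : FI K) {x : K} (hx : x ∈ (I : FI K) * M) :
    x ∈ (J : FI K) * M :=
  (mul_le_mul_left ((FractionalIdeal.coeIdeal_le_coeIdeal K).2 h) M) hx

lemma fi_le (I : Ideal (𝓞 K)) (M : FI K) {x : K} (hx : x ∈ (I : FI K) * M) : x ∈ M := by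
  have := fi_mono (le_top : I ≤ ⊤) M hx
  rwa [FractionalIdeal.coeIdeal_top, one_mul] at this

/-- the arithmetic of the ideals -/
lemma key_ideal {g k e f : Ideal (𝓞 K)} (hf : f = g * k ^ 2) (hg : g ≠ ⊥) (hk : k ≠ ⊥)
    {M : FI K} {x₀ h : K} {b : 𝓞 K} (hx₀ : Gn f M x₀) (hke : k ≤ e)
    (hb : h - (b : K) * x₀ ∈ (f : FI K) * M) (hh : h ∈ ((g * e : Ideal (𝓞 K)) : FI K) * M)
    (hmin : ∀ e' : Ideal (𝓞 K), k ≤ e' → h ∈ ((g * e' : Ideal (𝓞 K)) : FI K) * M → e ≤ e') :
    b ∈ g * e ∧ g * e = Ideal.span {b} ⊔ g * k := by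
  have hfgk : f ≤ g * k := by
    rw [hf, pow_two, ← mul_assoc]
    exact Ideal.mul_le_left
  have hfge : f ≤ g * e := hfgk.trans (Ideal.mul_mono_right hke)
  have hbge : b ∈ g * e := by
    rw [← hx₀.iff b (g * e) hfge]
    have := Submodule.sub_mem _ hh (fi_mono hfge M hb)
    have e1 : h - (h - (b : K) * x₀) = (b : K) * x₀ := by ring
    rw [e1] at this
    exact this
  refine ⟨hbge, ?_⟩
  have hle : Ideal.span {b} ⊔ g * k ≤ g := by
    refine sup_le ?_ Ideal.mul_le_left
    rw [Ideal.span_singleton_le_iff_mem]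
    exact Ideal.mul_le_left hbge
  obtain ⟨e'', he''⟩ := Ideal.dvd_iff_le.2 hle
  have hg0 : g ≠ 0 := hg
  have hke'' : k ≤ e'' := by
    rw [← Ideal.dvd_iff_le, ← mul_dvd_mul_iff_left hg0, ← he'', Ideal.dvd_iff_le]
    exact le_sup_right
  have hee'' : e ≤ e'' := by
    apply hmin e'' hke''
    have h1 : f ≤ g * e'' := hfgk.trans (Ideal.mul_mono_right hke'')
    have h2 : b ∈ g * e'' := by
      rw [← he'']
      exact Ideal.mem_sup_left (Ideal.mem_span_singleton_self b)
    have h3 := Submodule.add_mem _ (fi_mono h1 M hb) ((hx₀.iff b _ h1).2 h2)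
    have e1 : h - (b : K) * x₀ + (b : K) * x₀ = h := by ring
    rw [e1] at h3
    exact h3
  have he''e : e'' ≤ e := by
    rw [← Ideal.dvd_iff_le, ← mul_dvd_mul_iff_left hg0, ← he'', Ideal.dvd_iff_le]
    refine sup_le ?_ (Ideal.mul_mono_right hke)
    rw [Ideal.span_singleton_le_iff_mem]
    exact hbge
  rw [he'', le_antisymm he''e hee'']

lemma key_j {g k e j f : Ideal (𝓞 K)} (hf : f = g * k ^ 2) (hg : g ≠ ⊥) (hk : k ≠ ⊥)
    (hj : k = e * j) {b : 𝓞 K} (hge : g * e = Ideal.span {b} ⊔ g * k) {r : 𝓞 K}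
    (hr : ∀ x ∈ k, r * b * x ∈ f) : r ∈ j := by
  have hg0 : g ≠ 0 := hg
  have hk0 : k ≠ 0 := hk
  have he0 : e ≠ 0 := by
    rintro rfl
    rw [zero_mul] at hj
    exact hk0 hj
  have h1 : Ideal.span {r} * (g * e) * k ≤ f := by
    rw [hge, Ideal.mul_sup, Ideal.sup_mul]
    refine sup_le ?_ ?_
    · rw [Ideal.span_singleton_mul_span_singleton, Ideal.span_singleton_mul_le_iff]
      exact hr
    · rw [hf]
      calc Ideal.span {r} * (g * k) * k = Ideal.span {r} * (g * k ^ 2) := by ring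
        _ ≤ g * k ^ 2 := Ideal.mul_le_right
  have h2 : (g * k) * k ∣ (g * k) * (e * Ideal.span {r}) := by
    rw [Ideal.dvd_iff_le]
    calc (g * k) * (e * Ideal.span {r}) = Ideal.span {r} * (g * e) * k := by ring
      _ ≤ f := h1
      _ = (g * k) * k := by rw [hf]; ring
  rw [mul_dvd_mul_iff_left (mul_ne_zero hg0 hk0)] at h2
  nth_rewrite 1 [hj] at h2
  rw [mul_dvd_mul_iff_left he0, Ideal.dvd_iff_le, Ideal.span_singleton_le_iff_mem] at h2
  exact h2

end

theorem pf_CS (hCQ : T_CQ) (hDF : T_DF) : Pool.Agent.H29.TC.T_CS := by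
  classical
  intro K _ _ g k hGK η hη M x₀ e h hM hx₀ hke hh hmin
  have hf0 : (g * k ^ 2 : Ideal (𝓞 K)) ≠ ⊥ := mul_ne_zero hGK.g_ne (pow_ne_zero 2 hGK.k_ne)
  generalize hf : (g * k ^ 2 : Ideal (𝓞 K)) = f at *
  have hf' : f = g * k ^ 2 := hf.symm
  obtain ⟨q1, q2, q3⟩ := hCQ K f η M x₀ hf0 hM hx₀
  have hhM : h ∈ M := fi_le _ M hh
  obtain ⟨b, -, hb⟩ := hx₀.gen h hhM
  obtain ⟨hbge, hge⟩ := key_ideal hf' hGK.g_ne hGK.k_ne hx₀ hke hb hh hmin
  have hbg : b ∈ g := Ideal.mul_le_left hbge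
  have hfk2 : f ≤ k ^ 2 := by rw [hf']; exact Ideal.mul_le_right
  have hk2k : k ^ 2 ≤ k := Ideal.pow_le_self two_ne_zero
  have hfk : f ≤ k := hfk2.trans hk2k
  -- nilpotent elements
  have hnk : ∀ x ∈ k, IsNilpotent (Ideal.Quotient.mk f x) := by
    intro x hx
    apply mk_nil
    rw [hf']
    exact pow_mem_gk hGK.rad hx
  have hnb : IsNilpotent (Ideal.Quotient.mk f b) := by
    apply mk_nil
    rw [hf']
    exact pow_mem_gk' hGK.rad hbg
  set β : 𝓞 K ⧸ f := Ideal.Quotient.mk f b with hβ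
  have hbk2 : ∀ c ∈ k ^ 2, b * c ∈ f := by
    intro c hc
    rw [hf']
    exact Ideal.mul_mem_mul hbg hc
  -- periodicity in the ring
  have hper : ∀ a c : 𝓞 K, c ∈ k ^ 2 →
      η (Ideal.Quotient.mk f (a + c) + β) * (starRingEnd ℂ) (η (Ideal.Quotient.mk f (a + c))) =
        η (Ideal.Quotient.mk f a + β) * (starRingEnd ℂ) (η (Ideal.Quotient.mk f a)) := by
    intro a c hc
    have hnc : IsNilpotent (Ideal.Quotient.mk f c) := hnk c (hk2k hc)
    by_cases ha : IsUnit (Ideal.Quotient.mk f a)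
    · have hab : IsUnit (Ideal.Quotient.mk f a + β) := unit_add_nil ha hnb
      obtain ⟨u, hu⟩ := (ha.mul hab).exists_right_inv
      have hs := shift ((k ^ 2).map (Ideal.Quotient.mk f)) β η (fun _ => 1) hη.mc
        ⟨fun _ _ => by norm_num, fun _ => by norm_num⟩
        (by
          intro x hx
          obtain ⟨x', hx', rfl⟩ := (Ideal.mem_map_iff_of_surjective _ Ideal.Quotient.mk_surjective).1 hx
          exact hnk x' (hk2k hx')) hnb
        (by
          intro x hx y _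
          obtain ⟨x', hx', rfl⟩ := (Ideal.mem_map_iff_of_surjective _ Ideal.Quotient.mk_surjective).1 hx
          rw [← mul_assoc, hβ, ← map_mul, Ideal.Quotient.eq_zero_iff_mem.2 (hbk2 x' hx'), zero_mul])
        (Ideal.Quotient.mk f a) u hu (Ideal.Quotient.mk f c) (Ideal.mem_map_of_mem _ hc)
      have hcb : Ideal.Quotient.mk f c * β = 0 := by
        rw [hβ, ← map_mul, Ideal.Quotient.eq_zero_iff_mem, mul_comm]
        exact hbk2 c hc
      rw [hcb, zero_mul, sub_zero, hη.mc.one] at hs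
      simp only [mul_one] at hs
      rw [map_add]
      exact hs
    · have hac : ¬ IsUnit (Ideal.Quotient.mk f (a + c)) := by
        intro h5
        apply ha
        have h6 := unit_add_nil h5 hnc.neg
        rw [map_add] at h6
        simpa using h6
      rw [hη.mc.zero _ ha, hη.mc.zero _ hac]
      simp
  -- the values of cq
  have hcqh : ∀ (a : 𝓞 K) (x : K), x - (a : K) * x₀ ∈ (f : FI K) * M →
      cq f η M x₀ (x + h) = η (Ideal.Quotient.mk f a + β) := by
    intro a x hx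
    rw [hβ, ← map_add]
    apply q1
    have := Submodule.add_mem _ hx hb
    have e1 : x - (a : K) * x₀ + (h - (b : K) * x₀) = x + h - ((a + b : 𝓞 K) : K) * x₀ := by
      push_cast; ring
    rw [e1] at this
    exact this
  have hpart1 : ∀ x ∈ M, ∀ t ∈ ((k ^ 2 : Ideal (𝓞 K)) : FI K) * M,
      cq f η M x₀ (x + t + h) * (starRingEnd ℂ) (cq f η M x₀ (x + t)) =
        cq f η M x₀ (x + h) * (starRingEnd ℂ) (cq f η M x₀ x) := by
    intro x hx t ht
    obtain ⟨a, -, ha⟩ := hx₀.gen x hx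
    obtain ⟨c, -, hc⟩ := hx₀.gen t (fi_le _ M ht)
    have hck : c ∈ k ^ 2 := by
      rw [← hx₀.iff c _ hfk2]
      have := Submodule.sub_mem _ ht (fi_mono hfk2 M hc)
      have e1 : t - (t - (c : K) * x₀) = (c : K) * x₀ := by ring
      rw [e1] at this
      exact this
    have hac : x + t - ((a + c : 𝓞 K) : K) * x₀ ∈ (f : FI K) * M := by
      have := Submodule.add_mem _ ha hc
      have e1 : x - (a : K) * x₀ + (t - (c : K) * x₀) = x + t - ((a + c : 𝓞 K) : K) * x₀ := by
        push_cast; ring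
      rw [e1] at this
      exact this
    rw [hcqh _ _ hac, q1 _ _ hac, hcqh _ _ ha, q1 _ _ ha]
    exact hper a c hck
  refine ⟨hpart1, ?_⟩
  intro X hX y hy
  have hk2M : ((k ^ 2 : Ideal (𝓞 K)) : FI K) * M ≠ 0 :=
    mul_ne_zero (FractionalIdeal.coeIdeal_ne_zero.2 (pow_ne_zero 2 hGK.k_ne)) hM
  have : Finite (𝓞 K ⧸ f) := Ideal.finiteQuotientOfFreeOfNeBot f hf0
  have : Fintype (𝓞 K ⧸ f) := Fintype.ofFinite _
  -- the additive character
  let E : 𝓞 K → ℂ := fun α =>
    cexp (2 * Real.pi * I * ((Algebra.trace ℚ K ((α : K) * x₀ * y) : ℚ) : ℂ))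
  have hEadd : ∀ α γ, E (α + γ) = E α * E γ := by
    intro α γ
    simp only [E]
    rw [← Complex.exp_add]
    congr 1
    have : ((α + γ : 𝓞 K) : K) * x₀ * y = (α : K) * x₀ * y + (γ : K) * x₀ * y := by
      push_cast; ring
    rw [this, map_add]
    push_cast
    ring
  have hE1 : ∀ α ∈ k ^ 2, E α = 1 := by
    intro α hα
    exact ex_one hk2M hy ((hx₀.iff α _ hfk2).2 hα)
  have hEn : ∀ α, ‖E α‖ = 1 := by
    intro α
    simp only [E]
    rw [Complex.norm_exp]
    simp
  let s : 𝓞 K ⧸ f → 𝓞 K := fun a => (Ideal.Quotient.mk_surjective a).choose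
  have hs : ∀ a, Ideal.Quotient.mk f (s a) = a := fun a =>
    (Ideal.Quotient.mk_surjective a).choose_spec
  let θ : 𝓞 K ⧸ f → ℂ := fun a => E (s a)
  have hEf : ∀ α γ : 𝓞 K, α - γ ∈ k ^ 2 → E α = E γ := by
    intro α γ h1
    have : α = γ + (α - γ) := by ring
    rw [this, hEadd, hE1 _ h1, mul_one]
  have hθ : ∀ α, θ (Ideal.Quotient.mk f α) = E α := by
    intro α
    apply hEf
    apply hfk2
    rw [← Ideal.Quotient.mk_eq_mk_iff_sub_mem, hs]
  have hAC : AC θ := by
    refine ⟨fun a c => ?_, fun a => hEn _⟩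
    have h1 : θ (a + c) = E (s a + s c) := by
      rw [← hθ, map_add, hs, hs]
    rw [h1, hEadd]
  set G : 𝓞 K ⧸ f → ℂ := fun a => η (a + β) * (starRingEnd ℂ) (η a) * θ a with hG
  -- coordinates
  have hco : ∀ r : K, ∃ α : 𝓞 K, r ∈ X → r - (α : K) * x₀ ∈ (f : FI K) * M := by
    intro r
    by_cases hr : r ∈ X
    · obtain ⟨α, -, hα⟩ := hx₀.gen r (hX.1 r hr)
      exact ⟨α, fun _ => hα⟩
    · exact ⟨0, fun h => absurd h hr⟩
  choose α hα using hco
  have hft : ft K X (fun x => cq f η M x₀ (x + h) * (starRingEnd ℂ) (cq f η M x₀ x)) y =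
      ∑ r ∈ X, G (Ideal.Quotient.mk f (α r)) := by
    unfold ft
    refine Finset.sum_congr rfl fun r hr => ?_
    beta_reduce
    rw [hcqh _ _ (hα r hr), q1 _ _ (hα r hr), hG]
    beta_reduce
    rw [hθ]
    congr 1
    have h1 : cexp (2 * Real.pi * I *
        ((Algebra.trace ℚ K ((r - (α r : K) * x₀) * y) : ℚ) : ℂ)) = 1 :=
      ex_one hk2M hy (fi_mono hfk2 M (hα r hr))
    simp only [E]
    have h2 : r * y = (α r : K) * x₀ * y + (r - (α r : K) * x₀) * y := by ring
    rw [h2, map_add]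
    push_cast
    rw [mul_add, Complex.exp_add, h1, mul_one]
  have hfib := sum_fib ((k ^ 2).map (Ideal.Quotient.mk f)) X (fun r => Ideal.Quotient.mk f (α r))
    (by
      intro a
      obtain ⟨a', rfl⟩ := Ideal.Quotient.mk_surjective a
      have hmemM : (a' : K) * x₀ ∈ M := by
        have := M.val.smul_mem a' hx₀.mem
        rwa [Algebra.smul_def] at this
      have hiff : ∀ r ∈ X, (Ideal.Quotient.mk f a' - Ideal.Quotient.mk f (α r) ∈
          (k ^ 2).map (Ideal.Quotient.mk f) ↔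
          (a' : K) * x₀ - r ∈ ((k ^ 2 : Ideal (𝓞 K)) : FI K) * M) := by
        intro r hr
        rw [← map_sub, Ideal.mem_quotient_iff_mem hfk2, ← hx₀.iff _ _ hfk2]
        have hr' := fi_mono hfk2 M (hα r hr)
        constructor
        · intro h1
          have := Submodule.sub_mem _ h1 hr'
          have e1 : ((a' - α r : 𝓞 K) : K) * x₀ - (r - (α r : K) * x₀) = (a' : K) * x₀ - r := by
            push_cast; ring
          rw [e1] at this
          exact this
        · intro h1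
          have := Submodule.add_mem _ h1 hr'
          have e1 : (a' : K) * x₀ - r + (r - (α r : K) * x₀) = ((a' - α r : 𝓞 K) : K) * x₀ := by
            push_cast; ring
          rw [e1] at this
          exact this
      obtain ⟨r, ⟨hr, h1⟩, h2⟩ := hX.2 _ hmemM
      refine ⟨r, hr, (hiff r hr).2 h1, fun r' hr' h3 => h2 r' ⟨hr', (hiff r' hr').1 h3⟩⟩) G
    (by
      intro a c hc
      obtain ⟨a', rfl⟩ := Ideal.Quotient.mk_surjective a
      obtain ⟨c', hc', rfl⟩ := (Ideal.mem_map_iff_of_surjective _ Ideal.Quotient.mk_surjective).1 hc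
      rw [hG]
      simp only
      rw [← map_add, hper a' c' hc', hθ, hθ, hEadd, hE1 _ hc', mul_one])
  -- norms
  have hcard : ∀ I : Ideal (𝓞 K), Nat.card (𝓞 K ⧸ I) = Ideal.absNorm I := by
    intro I
    rw [Ideal.absNorm_apply, Submodule.cardQuot_apply]
  have hg0 : Ideal.absNorm g ≠ 0 := by
    rw [Ne, Ideal.absNorm_eq_zero_iff]; exact hGK.g_ne
  have hk0 : Ideal.absNorm k ≠ 0 := by
    rw [Ne, Ideal.absNorm_eq_zero_iff]; exact hGK.k_ne
  have hc1 : Nat.card ((k ^ 2).map (Ideal.Quotient.mk f)) = Ideal.absNorm g := by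
    have h1 := card_map_mul f (k ^ 2) hfk2
    rw [hcard, hcard, hf', map_mul] at h1
    rw [map_pow] at h1
    have h2 : Ideal.absNorm k ^ 2 ≠ 0 := pow_ne_zero _ hk0
    rw [← hf'] at h1
    exact Nat.eq_of_mul_eq_mul_right (Nat.pos_of_ne_zero h2) h1
  obtain ⟨j, hj⟩ := Ideal.dvd_iff_le.2 hke
  have hkj : k ≤ j := by rw [hj]; exact Ideal.mul_le_right
  have hfj : f ≤ j := hfk.trans hkj
  have hj0 : Ideal.absNorm j ≠ 0 := by
    rw [Ne, Ideal.absNorm_eq_zero_iff]
    rintro rfl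
    apply hGK.k_ne
    rw [hj]; simp
  have hc2 : Nat.card (j.map (Ideal.Quotient.mk f)) =
      Ideal.absNorm g * Ideal.absNorm k * Ideal.absNorm e := by
    have h1 := card_map_mul f j hfj
    rw [hcard, hcard] at h1
    have h2 : Ideal.absNorm f = Ideal.absNorm g * Ideal.absNorm k * Ideal.absNorm e *
        Ideal.absNorm j := by
      have h3 : Ideal.absNorm k = Ideal.absNorm e * Ideal.absNorm j := by
        conv_lhs => rw [hj]
        exact map_mul _ _ _
      rw [hf', map_mul, map_pow, pow_two]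
      nth_rewrite 2 [h3]
      ring
    rw [h2] at h1
    exact Nat.eq_of_mul_eq_mul_right (Nat.pos_of_ne_zero hj0) h1
  have hmain := complete_sum (k.map (Ideal.Quotient.mk f)) β η θ hη.mc
    (by
      intro w hw
      by_contra hc
      obtain ⟨r, -, hr⟩ := hη.prim w hc
      exact hr (hw r)) hAC
    (by
      intro x hx
      obtain ⟨x', hx', rfl⟩ := (Ideal.mem_map_iff_of_surjective _ Ideal.Quotient.mk_surjective).1 hx
      exact hnk x' hx') hnb
    (by
      intro x hx z hz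
      obtain ⟨x', hx', rfl⟩ := (Ideal.mem_map_iff_of_surjective _ Ideal.Quotient.mk_surjective).1 hx
      obtain ⟨z', hz', rfl⟩ := (Ideal.mem_map_iff_of_surjective _ Ideal.Quotient.mk_surjective).1 hz
      rw [hβ, ← map_mul, ← map_mul, Ideal.Quotient.eq_zero_iff_mem]
      apply hbk2
      rw [pow_two]
      exact Ideal.mul_mem_mul hx' hz')
    (by
      have h1 : (1 : 𝓞 K) ∈ Ideal.span {(2 : 𝓞 K)} ⊔ k := by rw [hGK.odd]; trivial
      obtain ⟨u, hu, v, hv, huv⟩ := Submodule.mem_sup.1 h1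
      obtain ⟨w, hw⟩ := Ideal.mem_span_singleton'.1 hu
      have h2 : IsUnit (Ideal.Quotient.mk f (w * 2)) := by
        have e1 : w * 2 = 1 + (-v) := by rw [hw]; linear_combination huv
        rw [e1, map_add, map_one]
        refine unit_add_nil isUnit_one ?_
        rw [map_neg]
        exact (hnk v hv).neg
      rw [map_mul] at h2
      have h3 := isUnit_of_mul_isUnit_right h2
      have e2 : Ideal.Quotient.mk f (2 : 𝓞 K) = 2 := map_ofNat _ 2
      rwa [e2] at h3)
    (j.map (Ideal.Quotient.mk f))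
    (by
      intro r hr
      obtain ⟨r', rfl⟩ := Ideal.Quotient.mk_surjective r
      apply Ideal.mem_map_of_mem
      refine key_j hf' hGK.g_ne hGK.k_ne hj hge fun x hx => ?_
      have := hr (Ideal.Quotient.mk f x) (Ideal.mem_map_of_mem _ hx)
      rw [hβ, ← map_mul, ← map_mul, Ideal.Quotient.eq_zero_iff_mem] at this
      exact this)
  have hideals : Nat.card {D : Ideal (𝓞 K ⧸ f) // j.map (Ideal.Quotient.mk f) ≤ D} ≤
      (dvs K k).card :=
    card_ideals_le f j (dvs K k) fun D hD => (hDF K k hGK.k_ne D).2 (hkj.trans hD)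
  have hsum : ∑ a, G a = ∑ a, η (a + β) * (starRingEnd ℂ) (η a) * θ a := rfl
  rw [← hsum, hfib, ← hft, norm_mul, Complex.norm_natCast, hc1, hc2] at hmain
  have hgpos : (0 : ℝ) < Ideal.absNorm g := by exact_mod_cast Nat.pos_of_ne_zero hg0
  have hfin : (Ideal.absNorm g : ℝ) * ‖ft K X (fun x => cq f η M x₀ (x + h) *
      (starRingEnd ℂ) (cq f η M x₀ x)) y‖ ≤ (Ideal.absNorm g : ℝ) *
      ((dvs K k).card * (Nf K k * Nf K e)) := by
    refine hmain.trans ?_
    unfold Nf
    have h1 : ((Ideal.absNorm g * Ideal.absNorm k * Ideal.absNorm e *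
        Nat.card {D : Ideal (𝓞 K ⧸ f) // j.map (Ideal.Quotient.mk f) ≤ D} : ℕ) : ℝ) ≤
        ((Ideal.absNorm g * Ideal.absNorm k * Ideal.absNorm e * (dvs K k).card : ℕ) : ℝ) := by
      exact_mod_cast Nat.mul_le_mul_left _ hideals
    refine h1.trans (le_of_eq ?_)
    push_cast
    ring
  exact le_of_mul_le_mul_left hfin hgpos

end Pool.Agent.H81.THC
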