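import Pool.Agent.H29.TC.Targets

set_option autoImplicit false

open NumberField Complex
open scoped nonZeroDivisors

namespace Pool.Agent.H81.THC

open Pool.Agent.H25.HK Pool.Agent.H28.RC Pool.Agent.H23.LB Pool.Agent.H29.TC

/-! ### rings -/

lemma pow_mem_gk {A : Type} [CommRing A] {g k : Ideal A}
    (hrad : ∀ P : Ideal A, P.IsPrime → (g ≤ P ↔ k ≤ P)) {x : A} (hx : x ∈ k) :
    ∃ n : ℕ, x ^ n ∈ g * k ^ 2 := by
  have h1 : x ∈ g.radical := by
    rw [Ideal.radical_eq_sInf, Ideal.mem_sInf]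
    intro P hP
    exact (hrad P hP.2).1 hP.1 hx
  obtain ⟨n, hn⟩ := h1
  refine ⟨n + 2, ?_⟩
  rw [pow_add]
  exact Ideal.mul_mem_mul hn (Ideal.pow_mem_pow hx 2)

lemma pow_mem_gk' {A : Type} [CommRing A] {g k : Ideal A}
    (hrad : ∀ P : Ideal A, P.IsPrime → (g ≤ P ↔ k ≤ P)) {x : A} (hx : x ∈ g) :
    ∃ n : ℕ, x ^ n ∈ g * k ^ 2 := by
  have h1 : x ∈ k.radical := by
    rw [Ideal.radical_eq_sInf, Ideal.mem_sInf]
    intro P hP
    exact (hrad P hP.2).2 hP.1 hx
  obtain ⟨n, hn⟩ := h1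
  obtain ⟨m, hm⟩ := pow_mem_gk hrad hn
  exact ⟨n * m, by rwa [pow_mul]⟩

lemma mk_nil {A : Type} [CommRing A] {f : Ideal A} {x : A} (h : ∃ n : ℕ, x ^ n ∈ f) :
    IsNilpotent (Ideal.Quotient.mk f x) := by
  obtain ⟨n, hn⟩ := h
  exact ⟨n, by rw [← map_pow]; exact Ideal.Quotient.eq_zero_iff_mem.2 hn⟩

open scoped Classical in
/-- a sum of a periodic function over a finite ring -/
lemma sum_fib {R ι : Type} [CommRing R] [Fintype R] (I : Ideal R) (X : Finset ι) (α : ι → R)
    (hu : ∀ a : R, ∃ r ∈ X, a - α r ∈ I ∧ ∀ r' ∈ X, a - α r' ∈ I → r' = r) (G : R → ℂ)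
    (hG : ∀ a, ∀ c ∈ I, G (a + c) = G a) :
    ∑ a, G a = (Nat.card I : ℂ) * ∑ r ∈ X, G (α r) := by
  have h1 : ∀ a, G a = ∑ r ∈ X, (if a - α r ∈ I then G a else 0) := by
    intro a
    obtain ⟨r, hr, h2, h3⟩ := hu a
    rw [Finset.sum_eq_single r]
    · rw [if_pos h2]
    · intro r' hr' hne
      rw [if_neg fun h => hne (h3 r' hr' h)]
    · intro h; exact absurd hr h
  calc ∑ a, G a = ∑ a, ∑ r ∈ X, (if a - α r ∈ I then G a else 0) :=
        Finset.sum_congr rfl fun a _ => h1 a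
    _ = ∑ r ∈ X, ∑ a, (if a - α r ∈ I then G a else 0) := Finset.sum_comm
    _ = ∑ r ∈ X, (Nat.card I : ℂ) * G (α r) := by
        refine Finset.sum_congr rfl fun r _ => ?_
        rw [← Equiv.sum_comp (Equiv.addLeft (α r))
          (fun a => if a - α r ∈ I then G a else 0)]
        have h2 : ∀ c : R, (if (Equiv.addLeft (α r)) c - α r ∈ I then
            G ((Equiv.addLeft (α r)) c) else 0) = if c ∈ I then G (α r) else 0 := by
          intro c
          have e : (Equiv.addLeft (α r)) c = α r + c := rfl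
          rw [e, add_sub_cancel_left]
          split_ifs with hc
          · rw [hG _ _ hc]
          · rfl
        rw [Finset.sum_congr rfl fun c _ => h2 c, ← Finset.sum_filter, Finset.sum_const,
          nsmul_eq_mul]
        congr 2
        rw [Nat.card_eq_fintype_card, Fintype.card_subtype]
    _ = _ := by rw [Finset.mul_sum]

lemma card_ideals_le {A : Type} [CommRing A] (f j : Ideal A) (S : Finset (Ideal A))
    (hS : ∀ D : Ideal A, j ≤ D → D ∈ S) :
    Nat.card {D : Ideal (A ⧸ f) // j.map (Ideal.Quotient.mk f) ≤ D} ≤ S.card := by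
  let F : {D : Ideal (A ⧸ f) // j.map (Ideal.Quotient.mk f) ≤ D} → S := fun D =>
    ⟨D.1.comap (Ideal.Quotient.mk f), hS _ (Ideal.map_le_iff_le_comap.1 D.2)⟩
  have hF : Function.Injective F := by
    intro D D' h
    apply Subtype.ext
    have h1 : D.1.comap (Ideal.Quotient.mk f) = D'.1.comap (Ideal.Quotient.mk f) :=
      congrArg Subtype.val h
    exact Ideal.comap_injective_of_surjective _ Ideal.Quotient.mk_surjective h1
  have := Nat.card_le_card_of_injective F hF
  simpa using this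

lemma card_map_mul {A : Type} [CommRing A] (f j : Ideal A) (hfj : f ≤ j) :
    Nat.card (j.map (Ideal.Quotient.mk f)) * Nat.card (A ⧸ j) = Nat.card (A ⧸ f) := by
  rw [← Nat.card_congr (DoubleQuot.quotQuotEquivQuotOfLE hfj).toEquiv]
  exact (Submodule.card_eq_card_quotient_mul_card (j.map (Ideal.Quotient.mk f))).symm

/-! ### traces -/

lemma ex_one {K : Type} [Field K] [NumberField K] {N : FI K} (hN : N ≠ 0) {y z : K}
    (hy : y ∈ du K N) (hz : z ∈ N) :
    cexp (2 * Real.pi * I * ((Algebra.trace ℚ K (z * y) : ℚ) : ℂ)) = 1 := by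
  obtain ⟨n, hn⟩ := (FractionalIdeal.mem_dual (A := ℤ) (K := ℚ) hN).1 hy z hz
  rw [Algebra.traceForm_apply] at hn
  rw [mul_comm z y, ← hn, Complex.exp_eq_one_iff]
  refine ⟨n, ?_⟩
  simp
  ring

end Pool.Agent.H81.THC
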