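import Pool.Agent.H29.TC.Targets
import Pool.Agent.H68.GLA.MQ

/-!
# Board thc_modules, module MC: the mean square over a coset of the characters modulo `l g`
-/

set_option autoImplicit false

open NumberField NumberField.InfinitePlace NumberField.Units
  NumberField.Units.dirichletUnitTheorem MeasureTheory Set Filter Complex
open scoped nonZeroDivisors ENNReal

namespace Pool.Agent.H81.THC

open Pool.Agent.H25.HK Pool.Agent.H23.LB
open Pool.Agent.H28.RC hiding cf gS T_H1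
open Pool.Agent.H29.TC
open Pool.Agent.H68.GLA (ang rot int_real one_le_Nf one_le_discr one_le_dN dN_rpow cw_pos inv_cw_le
  card_RP cos_rpow)

section NF

variable {K : Type} [Field K] [NumberField K]

open scoped Classical in
lemma ec_add (ν ν' : InfinitePlace K → ℝ) (z : logSpace K) :
    ec K (ν + ν') z = ec K ν' z * ec K ν z := by
  unfold ec
  rw [← Complex.exp_add]
  congr 1
  have h : pr K (ν + ν') z = pr K ν' z + pr K ν z := by
    unfold pr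
    rw [← Finset.sum_add_distrib]
    refine Finset.sum_congr rfl fun w _ => ?_
    simp only [Pi.add_apply]
    ring
  rw [h]
  push_cast
  ring

lemma ez_cont (hAZ : T_AZ) {f : Ideal (𝓞 K)} (hf : f ≠ ⊥) {M : FI K} (hM : M ≠ 0)
    (S : Finset (RP K)) {r : K} (hr : r ∈ M) {φ : ℝ} (hφ : |φ| < Real.pi / 2) (s : ℂ) :
    Continuous (fun z => EZ K S f M r φ z s) := by
  have h := (hAZ K S f M r φ hf hM hr hφ).2.1 s
  unfold EZ
  exact (h.sub continuous_const).sub continuous_const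

/-- the function in the Bessel inequality -/
noncomputable def Fcr {f : Ideal (𝓞 K)} (χ : HC K f) (g : Ideal (𝓞 K)) (M : FI K) (X : Finset K)
    (S : Finset (RP K)) (φ : ℝ) (s : ℂ) (r : K) (z : logSpace K) : ℂ :=
  ec K χ.ν z * ∑ r' ∈ X, cr K g M (cf χ M) r r' * EZ K S f M r' φ z s

open scoped Classical in
lemma lam_tw (hTW : T_TW) (hCF : T_CF) (hPU : T_PU) (hAZ : T_AZ) {f g : Ideal (𝓞 K)}
    (hf : f ≠ ⊥) (hf1 : f ≠ ⊤) (hg : g ≠ ⊥) (hfg : f ≤ g) (D : Sys K f) (X₁ : D.ι → Finset K)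
    (hX₁ : ∀ c, Rep K g (D.M c) (X₁ c)) (χ : HC K f) (ψ : HC K g) {φ : ℝ}
    (hφ : |φ| < Real.pi / 2) (s : ℂ) :
    Lam D (tw χ ψ hfg) φ s = ∑ c, ∑ r ∈ X₁ c, cf ψ (D.M c) r *
      ∫ z in Fd K, ec K ψ.ν z * Fcr χ g (D.M c) (D.X c) (tw χ ψ hfg).S φ s r z := by
  unfold Lam
  refine Finset.sum_congr rfl fun c _ => ?_
  set M := D.M c with hM
  have hM0 : M ≠ 0 := D.reps.1 c
  have hX := D.rep c
  rw [← hM] at hX
  have hX1 := hX₁ c
  rw [← hM] at hX1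
  obtain ⟨-, -, -, -, hper, -⟩ := hCF K g ψ M hg hM0
  -- the integrals
  set A : K → ℂ := fun r' => ∫ z in Fd K, ec K (tw χ ψ hfg).ν z *
    EZ K (tw χ ψ hfg).S f M r' φ z s with hA
  have hcont : ∀ r' ∈ D.X c, Continuous (fun z => ec K (tw χ ψ hfg).ν z *
      EZ K (tw χ ψ hfg).S f M r' φ z s) := by
    intro r' hr'
    exact ((hPU K).2.2.2.2.1 _).1.mul (ez_cont hAZ hf hM0 _ (hX.1 r' hr') hφ s)
  have hint : ∀ r, ∫ z in Fd K, ec K ψ.ν z * Fcr χ g M (D.X c) (tw χ ψ hfg).S φ s r z =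
      ∑ r' ∈ D.X c, cr K g M (cf χ M) r r' * A r' := by
    intro r
    have h1 : ∀ z, ec K ψ.ν z * Fcr χ g M (D.X c) (tw χ ψ hfg).S φ s r z =
        ∑ r' ∈ D.X c, cr K g M (cf χ M) r r' * (ec K (tw χ ψ hfg).ν z *
          EZ K (tw χ ψ hfg).S f M r' φ z s) := by
      intro z
      unfold Fcr
      have h2 : ec K (tw χ ψ hfg).ν z = ec K ψ.ν z * ec K χ.ν z := ec_add χ.ν ψ.ν z
      rw [h2, ← mul_assoc, Finset.mul_sum]
      refine Finset.sum_congr rfl fun r' _ => ?_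
      ring
    simp only [h1]
    rw [integral_finsetSum]
    · refine Finset.sum_congr rfl fun r' _ => ?_
      rw [integral_const_mul]
    · intro r' hr'
      exact (cont_int Pool.Agent.H66.HK.fd _ (hcont r' hr')).const_mul _
  calc ∑ r' ∈ D.X c, cf (tw χ ψ hfg) M r' * A r'
      = ∑ r' ∈ D.X c, ∑ r ∈ X₁ c, cf ψ M r * (cr K g M (cf χ M) r r' * A r') := by
        refine Finset.sum_congr rfl fun r' hr' => ?_
        have hr'M := hX.1 r' hr'
        rw [hTW K f g χ ψ hfg M hf hf1 hM0 r' hr'M]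
        obtain ⟨r, ⟨hr, h1⟩, h2⟩ := hX1.2 r' hr'M
        rw [Finset.sum_eq_single r]
        · have h3 : cf ψ M r' = cf ψ M r := by
            have := hper r (hX1.1 r hr) (r' - r) h1
            rw [← this]
            congr 1
            ring
          have h4 : cr K g M (cf χ M) r r' = cf χ M r' := by
            unfold cr ci
            rw [if_pos h1, one_mul]
          rw [h3, h4]
          ring
        · intro r'' hr'' hne
          have h4 : cr K g M (cf χ M) r'' r' = 0 := by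
            unfold cr ci
            rw [if_neg fun h => hne (h2 r'' ⟨hr'', h⟩), zero_mul]
          rw [h4]
          ring
        · intro h; exact absurd hr h
    _ = ∑ r ∈ X₁ c, ∑ r' ∈ D.X c, cf ψ M r * (cr K g M (cf χ M) r r' * A r') :=
        Finset.sum_comm
    _ = _ := by
        refine Finset.sum_congr rfl fun r _ => ?_
        rw [hint r, Finset.mul_sum]

lemma phi_le {g : Ideal (𝓞 K)} (hg : g ≠ ⊥) : (Phi K g : ℝ) ≤ Nf K g := by
  unfold Phi Nf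
  have : Finite (𝓞 K ⧸ g) := Ideal.finiteQuotientOfFreeOfNeBot g hg
  rw [Ideal.absNorm_apply, Submodule.cardQuot_apply]
  exact_mod_cast Nat.card_le_card_of_injective (fun u : (𝓞 K ⧸ g)ˣ => (u : 𝓞 K ⧸ g))
    Units.val_injective

omit [NumberField K] in
lemma mem_dvs' {k e : Ideal (𝓞 K)} (h : e ∈ dvs K k) : k ≤ e := by
  classical
  unfold dvs at h
  split_ifs at h with h1
  · simpa using h
  · simp at h

lemma as_nonneg (hFP : T_FP) {M : FI K} (hM : M ≠ 0) (κ : ℝ) (z : logSpace K) :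
    0 ≤ AS K κ M z := by
  unfold AS
  have h1 := Pool.Agent.H68.GLA.ak_nonneg hFP M hM κ z
  have h2 := Pool.Agent.H68.GLA.ak_nonneg hFP (du K M) (FractionalIdeal.dual_ne_zero ℤ ℚ hM) κ (-z)
  linarith

lemma et_nonneg (hFP : T_FP) {g k : Ideal (𝓞 K)} (hg : g ≠ ⊥) (hk : k ≠ ⊥) {M : FI K}
    (hM : M ≠ 0) (κ : ℝ) (z : logSpace K) : 0 ≤ Et K κ g k M z := by
  unfold Et
  have h0 : ∀ {I : Ideal (𝓞 K)}, I ≠ ⊥ → (I : FI K) * M ≠ 0 := fun h =>
    mul_ne_zero (FractionalIdeal.coeIdeal_ne_zero.2 h) hM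
  have h1 := as_nonneg hFP hM κ z
  have h2 := as_nonneg hFP (h0 (pow_ne_zero 2 hk : k ^ 2 ≠ ⊥)) κ z
  have h3 : 0 ≤ ∑ e ∈ dvs K k, AS K κ (((g * e : Ideal (𝓞 K)) : FI K) * M) z := by
    refine Finset.sum_nonneg fun e he => ?_
    have he0 : e ≠ ⊥ := by
      rintro rfl
      exact hk (le_bot_iff.1 (mem_dvs' he))
    exact as_nonneg hFP (h0 (mul_ne_zero hg he0)) κ z
  linarith

end NF

open scoped Classical in
theorem mean_tw (hBB : T_BB) (hME : T_ME') (hDV : T_DV) (hPU : T_PU) (hAZ : T_AZ) (hFP : T_FP)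
    (n : ℕ) (hn : 0 < n) : ∃ B : ℝ, 0 ≤ B ∧ ∀ κ : ℝ, 0 < κ → κ ≤ 1 → ∃ C : ℝ, 0 ≤ C ∧
    ∀ (K : Type) [Field K] [NumberField K], Module.finrank ℚ K = n →
    ∀ (l g k : Ideal (𝓞 K)), GK l g k → ∀ (D : Sys K (fk l g k)) (χ : HC K (fk l g k)),
    Prk k χ → ∀ (X₁ : D.ι → Finset K), (∀ c, Rep K (l * g) (D.M c) (X₁ c)) →
    ∀ (S : Finset (RP K)) (φ : ℝ), |φ| < Real.pi / 2 → ∀ s : ℂ, |s.re - 1 / 2| ≤ κ / 8 →
    ∑ c, ∑ r ∈ X₁ c, ∫ z in Fd K, ‖Fcr χ (l * g) (D.M c) (D.X c) S φ s r z‖ ^ 2 ≤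
      C * Real.cos φ ^ (-B) * (cw K * dN K (fk l g k) ^ (1 + 6 * κ)) *
        (1 + Nf K k / Nf K (l * g)) := by
  obtain ⟨B, hB⟩ := hBB n hn
  refine ⟨max B 0, le_max_right _ _, fun κ hκ hκ1 => ?_⟩
  obtain ⟨C, hC⟩ := hB κ hκ hκ1
  obtain ⟨C1, hC1⟩ := hME n κ hκ
  obtain ⟨C2, hC2⟩ := hDV n κ hκ
  refine ⟨max C 0 * (max C1 0 * max C2 0), by positivity, ?_⟩
  intro K _ _ hK l g k hGK D χ hχ X₁ hX₁ S φ hφ s hs
  have hf0 : fk l g k ≠ ⊥ :=
    mul_ne_zero hGK.l_ne (mul_ne_zero hGK.g_ne (pow_ne_zero 2 hGK.k_ne))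
  have hlg : l * g ≠ ⊥ := mul_ne_zero hGK.l_ne hGK.g_ne
  have hcos : 0 < Real.cos φ := by
    rw [abs_lt] at hφ
    exact Real.cos_pos_of_mem_Ioo ⟨hφ.1, hφ.2⟩
  have hcp : 0 ≤ Real.cos φ ^ (-max B 0) := Real.rpow_nonneg hcos.le _
  have hNf := one_le_Nf (K := K) hf0
  have hNk := one_le_Nf (K := K) hGK.k_ne
  have hNlg := one_le_Nf (K := K) hlg
  have hcwp := cw_pos (K := K)
  have hd1 := one_le_discr (K := K)
  obtain ⟨hI, hMean⟩ := hC1 K hK D.ι D.M D.reps l g k hGK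
  obtain ⟨Q, hQ⟩ : ∃ Q : ℝ, Q = max C 0 * Real.cos φ ^ (-max B 0) *
    Nf K (fk l g k) ^ (1 + 5 * κ) * (1 + Nf K k / Nf K (l * g)) := ⟨_, rfl⟩
  have hQ0 : 0 ≤ Q := by rw [hQ]; positivity
  have hE0 : ∀ c z, 0 ≤ Et K κ (l * g) k (D.M c) z +
      Et K κ (l * g) k (du K ((fk l g k : FI K) * D.M c)) (-z) := by
    intro c z
    have h1 := et_nonneg hFP hlg hGK.k_ne (D.reps.1 c) κ z
    have h2 := et_nonneg hFP hlg hGK.k_ne (FractionalIdeal.dual_ne_zero ℤ ℚ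
      (mul_ne_zero (FractionalIdeal.coeIdeal_ne_zero.2 hf0) (D.reps.1 c))) κ (-z)
    exact add_nonneg h1 h2
  -- pointwise
  have hnorm : ∀ c r z, ‖Fcr χ (l * g) (D.M c) (D.X c) S φ s r z‖ ^ 2 =
      ‖∑ r' ∈ D.X c, cr K (l * g) (D.M c) (cf χ (D.M c)) r r' *
        EZ K S (fk l g k) (D.M c) r' φ z s‖ ^ 2 := by
    intro c r z
    unfold Fcr
    rw [norm_mul, ((hPU K).2.2.2.2.1 _).2 z, one_mul]
  have hpt : ∀ c z, ∑ r ∈ X₁ c, ‖Fcr χ (l * g) (D.M c) (D.X c) S φ s r z‖ ^ 2 ≤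
      Q * (Et K κ (l * g) k (D.M c) z +
        Et K κ (l * g) k (du K ((fk l g k : FI K) * D.M c)) (-z)) := by
    intro c z
    rw [Finset.sum_congr rfl fun r _ => hnorm c r z]
    refine (hC K hK S l g k hGK χ hχ (D.M c) (D.X c) (X₁ c) φ (D.reps.1 c) (D.rep c) (hX₁ c) hφ z
      s hs).trans ?_
    refine mul_le_mul_of_nonneg_right ?_ (hE0 c z)
    rw [hQ]
    have h1 : C * Real.cos φ ^ (-B) ≤ max C 0 * Real.cos φ ^ (-max B 0) := by
      refine (mul_le_mul_of_nonneg_right (le_max_left C 0) (Real.rpow_nonneg hcos.le _)).trans ?_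
      refine mul_le_mul_of_nonneg_left ?_ (le_max_right _ _)
      exact Real.rpow_le_rpow_of_exponent_ge hcos (Real.cos_le_one _)
        (neg_le_neg (le_max_left B 0))
    gcongr
  have hcont : ∀ c r, Continuous (fun z => ‖Fcr χ (l * g) (D.M c) (D.X c) S φ s r z‖ ^ 2) := by
    intro c r
    unfold Fcr
    refine ((((hPU K).2.2.2.2.1 _).1.mul ?_).norm).pow 2
    refine continuous_finsetSum _ fun r' hr' => ?_
    exact continuous_const.mul (ez_cont hAZ hf0 (D.reps.1 c) _ ((D.rep c).1 r' hr') hφ s)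
  have hclass : ∀ c, ∑ r ∈ X₁ c, ∫ z in Fd K, ‖Fcr χ (l * g) (D.M c) (D.X c) S φ s r z‖ ^ 2 ≤
      Q * ∫ z in Fd K, (Et K κ (l * g) k (D.M c) z +
        Et K κ (l * g) k (du K ((fk l g k : FI K) * D.M c)) (-z)) := by
    intro c
    rw [← integral_finsetSum _ (fun r _ => int_real _ (hcont c r)), ← integral_const_mul]
    exact integral_mono (int_real _ (continuous_finsetSum _ fun r _ => hcont c r))
      ((hI c).const_mul Q) (hpt c)
  refine (Finset.sum_le_sum fun c _ => hclass c).trans ?_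
  rw [← Finset.mul_sum]
  refine (mul_le_mul_of_nonneg_left hMean hQ0).trans ?_
  have hdv := hC2 K hK k hGK.k_ne
  have hkf : Nf K k ≤ Nf K (fk l g k) := by
    unfold Nf
    have h1 : Ideal.absNorm k ∣ Ideal.absNorm (fk l g k) := by
      apply Ideal.absNorm_dvd_absNorm_of_le
      have h2 : g * k ^ 2 ≤ k := (Ideal.mul_le_right).trans (Ideal.pow_le_self two_ne_zero)
      exact (Ideal.mul_le_right).trans h2
    have h3 : Ideal.absNorm (fk l g k) ≠ 0 := fun h => hf0 (Ideal.absNorm_eq_zero_iff.1 h)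
    exact_mod_cast Nat.le_of_dvd (Nat.pos_of_ne_zero h3) h1
  have hdv2 : ((dvs K k).card : ℝ) ≤ max C2 0 * Nf K (fk l g k) ^ κ := by
    refine hdv.trans ?_
    have h1 : Nf K k ^ κ ≤ Nf K (fk l g k) ^ κ := Real.rpow_le_rpow (by linarith) hkf hκ.le
    calc C2 * Nf K k ^ κ ≤ max C2 0 * Nf K k ^ κ := by
          gcongr; exact le_max_left _ _
      _ ≤ _ := by gcongr
  have hmean2 : C1 * cw K * |(discr K : ℝ)| ^ ((1 + κ) / 2) * (dvs K k).card ≤
      max C1 0 * cw K * |(discr K : ℝ)| ^ ((1 + 6 * κ) / 2) *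
        (max C2 0 * Nf K (fk l g k) ^ κ) := by
    have h1 : |(discr K : ℝ)| ^ ((1 + κ) / 2) ≤ |(discr K : ℝ)| ^ ((1 + 6 * κ) / 2) :=
      Real.rpow_le_rpow_of_exponent_le hd1 (by linarith)
    calc C1 * cw K * |(discr K : ℝ)| ^ ((1 + κ) / 2) * (dvs K k).card
        ≤ max C1 0 * cw K * |(discr K : ℝ)| ^ ((1 + κ) / 2) * (dvs K k).card := by
          gcongr; exact le_max_left _ _
      _ ≤ _ := by gcongr
  refine (mul_le_mul_of_nonneg_left hmean2 hQ0).trans (le_of_eq ?_)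
  rw [hQ, dN_rpow hf0]
  have e1 : Nf K (fk l g k) ^ (1 + 6 * κ) =
      Nf K (fk l g k) ^ (1 + 5 * κ) * Nf K (fk l g k) ^ κ := by
    rw [← Real.rpow_add (by linarith)]
    congr 1; ring
  rw [e1]
  ring

open scoped Classical in
/-- one sign type -/
lemma one_type_tw (hTW : T_TW) (hCF : T_CF) (hPU : T_PU) (hAZ : T_AZ) (hBE : T_BE)
    {K : Type} [Field K] [NumberField K] {l g k : Ideal (𝓞 K)} (hGK : GK l g k)
    (D : Sys K (fk l g k)) (X₁ : D.ι → Finset K) (hX₁ : ∀ c, Rep K (l * g) (D.M c) (X₁ c))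
    (χ : HC K (fk l g k)) (Y : Finset (HC K (l * g))) (S : Finset (RP K))
    {φ : ℝ} (hφ : |φ| < Real.pi / 2) (s : ℂ) {Q : ℝ}
    (hQ : ∑ c, ∑ r ∈ X₁ c, ∫ z in Fd K,
      ‖Fcr χ (l * g) (D.M c) (D.X c) (symmDiff χ.S S) φ s r z‖ ^ 2 ≤ Q) :
    ∑ ψ ∈ Y.filter (fun ψ => ψ.S = S), ‖Lam D (tw χ ψ (fk_le l g k)) φ s‖ ^ 2 ≤
      ((classNumber K : ℝ) * regulator K * Phi K (l * g)) * Q := by
  have hf0 : fk l g k ≠ ⊥ :=
    mul_ne_zero hGK.l_ne (mul_ne_zero hGK.g_ne (pow_ne_zero 2 hGK.k_ne))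
  have hlg : l * g ≠ ⊥ := mul_ne_zero hGK.l_ne hGK.g_ne
  have hf1 : fk l g k ≠ ⊤ := by
    intro h
    apply hGK.k_top
    rw [← top_le_iff, ← h]
    have h2 : g * k ^ 2 ≤ k := (Ideal.mul_le_right).trans (Ideal.pow_le_self two_ne_zero)
    exact (Ideal.mul_le_right).trans h2
  let D' : Sys K (l * g) := ⟨D.ι, D.M, X₁, D.reps, hX₁⟩
  have h := hBE K (l * g) hlg D' S (Y.filter (fun ψ => ψ.S = S))
    (fun χ hχ => (Finset.mem_filter.1 hχ).2)
    (fun c r z => Fcr χ (l * g) (D.M c) (D.X c) (symmDiff χ.S S) φ s r z) (by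
      intro c r _
      unfold Fcr
      refine ((hPU K).2.2.2.2.1 _).1.mul ?_
      refine continuous_finsetSum _ fun r' hr' => ?_
      exact continuous_const.mul (ez_cont hAZ hf0 (D.reps.1 c) _ ((D.rep c).1 r' hr') hφ s))
  have hV : 0 ≤ (classNumber K : ℝ) * regulator K * Phi K (l * g) := by
    have := (regulator_pos K).le
    positivity
  refine le_trans (le_of_eq ?_) (h.trans (mul_le_mul_of_nonneg_left hQ hV))
  refine Finset.sum_congr rfl (fun ψ hψ => ?_)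
  rw [lam_tw hTW hCF hPU hAZ hf0 hf1 hlg (fk_le l g k) D X₁ hX₁ χ ψ hφ s]
  have e1 : (tw χ ψ (fk_le l g k)).S = symmDiff χ.S S := by
    rw [← (Finset.mem_filter.1 hψ).2]
    rfl
  rw [e1]

open scoped Classical in
theorem pf_MC (hBB : T_BB) (hME : T_ME') (hTW : T_TW) (hDV : T_DV) (hCF : T_CF) (hPU : T_PU)
    (hFP : T_FP) (hAZ : T_AZ) (hPH : T_PH) (hBE : T_BE) (hGL : T_GL)
    (hRX : Pool.Agent.H28.RC.T_RX) : T_MC := by
  intro n hn R
  obtain ⟨B, hB0, hB⟩ := mean_tw hBB hME hDV hPU hAZ hFP n hn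
  obtain ⟨G, c, hc, hG⟩ := hGL n (R + R)
  refine ⟨2 * G + B, fun κ hκ hκ1 => ?_⟩
  obtain ⟨C, hC0, hC⟩ := hB κ hκ hκ1
  refine ⟨(Real.exp (n / 2) / c) ^ 2 * (2 ^ n * (C * (Real.pi / 2) ^ B) * 2 ^ n), ?_⟩
  intro K _ _ hK l g k hGK D χ hχ hχR Y hY s hs
  have hf0 : fk l g k ≠ ⊥ :=
    mul_ne_zero hGK.l_ne (mul_ne_zero hGK.g_ne (pow_ne_zero 2 hGK.k_ne))
  have hlg : l * g ≠ ⊥ := mul_ne_zero hGK.l_ne hGK.g_ne
  choose X₁ hX₁ _ using fun c => hRX K (l * g) (D.M c) hlg (D.reps.1 c)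
  obtain ⟨φ, hφ, hcos, hφt⟩ := ang s.im
  have habs := abs_le.1 hs
  have hre1 : 1 / 4 ≤ s.re := by linarith
  have hre2 : s.re ≤ 3 / 4 := by linarith
  have hs0 : s ≠ 0 := by
    rintro rfl
    rw [Complex.zero_re] at hre1
    linarith
  have hs1 : s ≠ 1 := by
    rintro rfl
    rw [Complex.one_re] at hre2
    linarith
  have h1t : 0 < 1 + |s.im| := by positivity
  have hdN := one_le_dN (K := K) hf0
  have hdN0 : 0 < dN K (fk l g k) := by linarith
  have hcw := cw_pos (K := K)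
  have hcosp : 0 < Real.cos φ := by
    rw [abs_lt] at hφ
    exact Real.cos_pos_of_mem_Ioo ⟨hφ.1, hφ.2⟩
  -- the pointwise bound
  have hpt : ∀ ψ ∈ Y, ‖Lam D (tw χ ψ (fk_le l g k)) 0 s / ((cw K : ℂ) *
      ((dN K (fk l g k) : ℝ) : ℂ) ^ s * gS K (tw χ ψ (fk_le l g k)).S
        (tw χ ψ (fk_le l g k)).ν s)‖ ^ 2 ≤
      (Real.exp (n / 2) / c) ^ 2 * ((1 + |s.im|) ^ (2 * G) *
        (((cw K)⁻¹) ^ 2 * dN K (fk l g k) ^ (-(2 * s.re)))) *
          ‖Lam D (tw χ ψ (fk_le l g k)) φ s‖ ^ 2 := by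
    intro ψ hψ
    obtain ⟨η, hη⟩ : ∃ η : HC K (fk l g k), η = tw χ ψ (fk_le l g k) := ⟨_, rfl⟩
    have hην : ∀ v, |η.ν v| ≤ R + R := by
      intro v
      rw [hη]
      exact (abs_add_le _ _).trans (add_le_add (hχR v) (hY ψ hψ v))
    rw [← hη]
    have hL := rot hPH hf0 D η hφ hs0 hs1 hφt
    have hg := hG K hK η.S η.ν hην s hre1 hre2
    rw [hK] at hL
    obtain ⟨E, hE⟩ : ∃ E : ℝ, E = Real.exp (-(Real.pi * n * |s.im| / 4)) := ⟨_, rfl⟩
    have hE0 : 0 < E := by rw [hE]; positivity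
    rw [← hE] at hL hg
    have hgp : 0 < c * (1 + |s.im|) ^ (-G) * E := by positivity
    rw [norm_div, norm_mul, norm_mul, Complex.norm_real, Real.norm_of_nonneg hcw.le,
      Complex.norm_cpow_eq_rpow_re_of_pos hdN0]
    have hden : 0 < cw K * dN K (fk l g k) ^ s.re * (c * (1 + |s.im|) ^ (-G) * E) := by
      positivity
    have h1 : ‖Lam D η 0 s‖ / (cw K * dN K (fk l g k) ^ s.re * ‖gS K η.S η.ν s‖) ≤
        (Real.exp (n / 2) * E * ‖Lam D η φ s‖) /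
          (cw K * dN K (fk l g k) ^ s.re * (c * (1 + |s.im|) ^ (-G) * E)) := by
      gcongr
    have h2 : (Real.exp (n / 2) * E * ‖Lam D η φ s‖) /
          (cw K * dN K (fk l g k) ^ s.re * (c * (1 + |s.im|) ^ (-G) * E)) =
        (Real.exp (n / 2) / c) * ((1 + |s.im|) ^ G * ((cw K)⁻¹ * dN K (fk l g k) ^ (-s.re))) *
          ‖Lam D η φ s‖ := by
      rw [Real.rpow_neg h1t.le, Real.rpow_neg hdN0.le]
      have e1 : (1 + |s.im|) ^ G ≠ 0 := (Real.rpow_pos_of_pos h1t _).ne'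
      have e2 : dN K (fk l g k) ^ s.re ≠ 0 := (Real.rpow_pos_of_pos hdN0 _).ne'
      field_simp
    rw [h2] at h1
    have h3 : 0 ≤ ‖Lam D η 0 s‖ / (cw K * dN K (fk l g k) ^ s.re * ‖gS K η.S η.ν s‖) := by
      positivity
    refine (pow_le_pow_left₀ h3 h1 2).trans (le_of_eq ?_)
    rw [mul_pow, mul_pow, mul_pow, mul_pow, ← Real.rpow_natCast ((1 + |s.im|) ^ G),
      ← Real.rpow_mul h1t.le, ← Real.rpow_natCast (dN K (fk l g k) ^ (-s.re)),
      ← Real.rpow_mul hdN0.le]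
    have e1 : G * ((2 : ℕ) : ℝ) = 2 * G := by push_cast; ring
    have e2 : -s.re * ((2 : ℕ) : ℝ) = -(2 * s.re) := by push_cast; ring
    rw [e1, e2]
  -- the sum over the types
  have hNlg := one_le_Nf (K := K) hlg
  have hNk := one_le_Nf (K := K) hGK.k_ne
  have hreg := (regulator_pos K).le
  have hV : 0 ≤ (classNumber K : ℝ) * regulator K * Phi K (l * g) := by
    positivity
  have hVN : ((classNumber K : ℝ) * regulator K * Phi K (l * g)) *
      (1 + Nf K k / Nf K (l * g)) ≤ classNumber K * regulator K * (Nf K (l * g) + Nf K k) := by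
    have h1 := phi_le (K := K) hlg
    calc ((classNumber K : ℝ) * regulator K * Phi K (l * g)) * (1 + Nf K k / Nf K (l * g))
        ≤ ((classNumber K : ℝ) * regulator K * Nf K (l * g)) * (1 + Nf K k / Nf K (l * g)) := by
          gcongr
      _ = classNumber K * regulator K * (Nf K (l * g) + Nf K k) := by
          field_simp
  have hL2 : ∑ ψ ∈ Y, ‖Lam D (tw χ ψ (fk_le l g k)) φ s‖ ^ 2 ≤
      2 ^ n * (((classNumber K : ℝ) * regulator K * Phi K (l * g)) *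
        (C * ((Real.pi / 2) ^ B * (1 + |s.im|) ^ B) *
          (cw K * dN K (fk l g k) ^ (1 + 6 * κ)) * (1 + Nf K k / Nf K (l * g)))) := by
    rw [← Finset.sum_fiberwise Y (fun ψ => ψ.S)
      (fun ψ => ‖Lam D (tw χ ψ (fk_le l g k)) φ s‖ ^ 2)]
    have h1 : ∀ S : Finset (RP K), ∑ ψ ∈ Y.filter (fun ψ => ψ.S = S),
        ‖Lam D (tw χ ψ (fk_le l g k)) φ s‖ ^ 2 ≤
        ((classNumber K : ℝ) * regulator K * Phi K (l * g)) *
          (C * ((Real.pi / 2) ^ B * (1 + |s.im|) ^ B) *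
            (cw K * dN K (fk l g k) ^ (1 + 6 * κ)) * (1 + Nf K k / Nf K (l * g))) := by
      intro S
      refine one_type_tw hTW hCF hPU hAZ hBE hGK D X₁ hX₁ χ Y S hφ s ?_
      refine (hC K hK l g k hGK D χ hχ X₁ hX₁ (symmDiff χ.S S) φ hφ s hs).trans ?_
      have := cos_rpow (t := s.im) hB0 hcos
      gcongr
    refine (Finset.sum_le_sum (fun S _ => h1 S)).trans ?_
    rw [Finset.sum_const, nsmul_eq_mul, Finset.card_univ]
    have h2 := card_RP (K := K)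
    rw [hK] at h2
    gcongr
  refine (Finset.sum_le_sum hpt).trans ?_
  rw [← Finset.mul_sum]
  refine (mul_le_mul_of_nonneg_left hL2 (by positivity)).trans ?_
  -- the final computation
  have hd : dN K (fk l g k) ^ (-(2 * s.re)) * dN K (fk l g k) ^ (1 + 6 * κ) ≤
      dN K (fk l g k) ^ (8 * κ) := by
    rw [← Real.rpow_add hdN0]
    exact Real.rpow_le_rpow_of_exponent_le hdN (by linarith)
  have hw : (cw K)⁻¹ ^ 2 * cw K ≤ 2 ^ n := by
    have h1 := inv_cw_le (K := K)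
    rw [hK] at h1
    calc (cw K)⁻¹ ^ 2 * cw K = (cw K)⁻¹ := by field_simp
      _ ≤ _ := h1
  calc _ = (Real.exp (n / 2) / c) ^ 2 * (2 ^ n * (C * (Real.pi / 2) ^ B) *
        ((cw K)⁻¹ ^ 2 * cw K)) * ((1 + |s.im|) ^ (2 * G) * (1 + |s.im|) ^ B) *
        (dN K (fk l g k) ^ (-(2 * s.re)) * dN K (fk l g k) ^ (1 + 6 * κ)) *
        (((classNumber K : ℝ) * regulator K * Phi K (l * g)) *
          (1 + Nf K k / Nf K (l * g))) := by ring
    _ ≤ (Real.exp (n / 2) / c) ^ 2 * (2 ^ n * (C * (Real.pi / 2) ^ B) * 2 ^ n) *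
        ((1 + |s.im|) ^ (2 * G) * (1 + |s.im|) ^ B) * dN K (fk l g k) ^ (8 * κ) *
        (classNumber K * regulator K * (Nf K (l * g) + Nf K k)) := by gcongr
    _ = _ := by rw [Real.rpow_add h1t]

end Pool.Agent.H81.THC
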